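import Mathlib
import Pool.Agent.N251.GA.Leaves

/-!
# Belyi's polynomial: two cusps imply abc
-/

set_option autoImplicit false

namespace Pool.Agent.N711.GA

open Pool.Agent.N251.GA

section ring

variable {A B : Type} [CommRing A] [CommRing B]

/-- the remainder of second order of `(w + c) ^ n` -/
def TT (w c : A) : ℕ → A
  | 0 => 0
  | n + 1 => (w + c) * TT w c n + n * w ^ (n - 1)

theorem TT_spec (w c : A) (n : ℕ) :
    (w + c) ^ n = w ^ n + n * w ^ (n - 1) * c + c ^ 2 * TT w c n := by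
  induction n with
  | zero => simp [TT]
  | succ n ih =>
    rw [pow_succ', ih, TT]
    rcases n with _ | m
    · simp [TT]
    · simp only [Nat.add_sub_cancel]
      push_cast
      ring

theorem TT_one (w c : A) : TT w c 1 = 0 := by simp [TT]

theorem TT_hom (t w c : A) (m : ℕ) : TT (t * w) (t * c) (m + 2) = t ^ m * TT w c (m + 2) := by
  induction m with
  | zero => simp [TT]
  | succ m ih =>
    have e : ∀ w c : A, TT w c (m + 1 + 2) =
        (w + c) * TT w c (m + 2) + ((m + 2 : ℕ) : A) * w ^ (m + 1) := fun w c => rfl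
    rw [e, e, ih]
    ring

theorem TT_map (f : A →+* B) (w c : A) (n : ℕ) : f (TT w c n) = TT (f w) (f c) n := by
  induction n with
  | zero => simp [TT]
  | succ n ih => simp only [TT, map_add, map_mul, map_pow, map_natCast, ih]

/-- the cofactor of Belyi's polynomial -/
def GG (γ : ℕ) (z b : A) : A :=
  TT (-(((γ : A) + 2) * (((γ : A) + 1) ^ (γ + 1) * z))) (((γ : A) + 1) ^ (γ + 2) * z + b) (γ + 2) +
    ((γ : A) + 2) ^ (γ + 2) * z *
      TT (-(((γ : A) + 1) * (((γ : A) + 1) ^ (γ + 1) * z))) (((γ : A) + 1) ^ (γ + 2) * z + b) (γ + 1)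

theorem GG_map (f : A →+* B) (γ : ℕ) (z b : A) : f (GG γ z b) = GG γ (f z) (f b) := by
  simp only [GG, map_add, map_mul, map_pow, map_neg, map_natCast, map_ofNat, map_one, TT_map]

theorem GG_hom (γ : ℕ) (t z b : A) : GG γ (t * z) (t * b) = t ^ γ * GG γ z b := by
  unfold GG
  have e1 : -(((γ : A) + 2) * (((γ : A) + 1) ^ (γ + 1) * (t * z))) =
      t * (-(((γ : A) + 2) * (((γ : A) + 1) ^ (γ + 1) * z))) := by ring
  have e2 : -(((γ : A) + 1) * (((γ : A) + 1) ^ (γ + 1) * (t * z))) =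
      t * (-(((γ : A) + 1) * (((γ : A) + 1) ^ (γ + 1) * z))) := by ring
  have e3 : ((γ : A) + 1) ^ (γ + 2) * (t * z) + t * b = t * (((γ : A) + 1) ^ (γ + 2) * z + b) := by
    ring
  rw [e1, e2, e3, TT_hom]
  rcases γ with _ | m
  · rw [TT_one, TT_one]
    ring
  · rw [show m + 1 + 1 = m + 2 by omega, TT_hom]
    ring

theorem belyi (γ : ℕ) (z b : A) :
    (b - ((γ : A) + 1) ^ (γ + 1) * z) ^ (γ + 2) + ((γ : A) + 2) ^ (γ + 2) * z * b ^ (γ + 1) =
      (((γ : A) + 1) ^ (γ + 2) * z + b) ^ 2 * GG γ z b := by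
  obtain ⟨w, hw⟩ : ∃ w, w = ((γ : A) + 1) ^ (γ + 1) * z := ⟨_, rfl⟩
  obtain ⟨X, hX⟩ : ∃ X, X = ((γ : A) + 1) ^ (γ + 2) * z + b := ⟨_, rfl⟩
  have hXw : X = ((γ : A) + 1) * w + b := by rw [hX, hw]; ring
  obtain ⟨n, hn⟩ : ∃ n, n = (γ : A) + 2 := ⟨_, rfl⟩
  obtain ⟨β, hβ⟩ : ∃ β, β = (γ : A) + 1 := ⟨_, rfl⟩
  unfold GG
  rw [← hw, ← hX, ← hn, ← hβ]
  have e1 : b - w = -(n * w) + X := by rw [hXw, hn]; ring
  have e2 : b = -(β * w) + X := by rw [hXw, hβ]; ring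
  have s1 := TT_spec (-(n * w)) X (γ + 2)
  have s2 := TT_spec (-(β * w)) X (γ + 1)
  rw [← e1] at s1
  rw [← e2] at s2
  have hw' : β ^ (γ + 1) * z - w = 0 := by rw [hw, hβ]; ring
  have h1 : (-(n * w)) ^ (γ + 2) + n ^ (γ + 2) * z * (-(β * w)) ^ (γ + 1) = 0 := by
    have : (-(n * w)) ^ (γ + 2) + n ^ (γ + 2) * z * (-(β * w)) ^ (γ + 1) =
        n ^ (γ + 2) * (-1) ^ (γ + 1) * w ^ (γ + 1) * (β ^ (γ + 1) * z - w) := by
      rw [neg_pow (n * w), neg_pow (β * w), mul_pow, mul_pow]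
      ring
    rw [this, hw', mul_zero]
  have h2 : ((γ + 2 : ℕ) : A) * (-(n * w)) ^ (γ + 2 - 1) * X +
      n ^ (γ + 2) * z * (((γ + 1 : ℕ) : A) * (-(β * w)) ^ (γ + 1 - 1) * X) = 0 := by
    have e3 : ((γ + 2 : ℕ) : A) = n := by rw [hn]; push_cast; rfl
    have e4 : ((γ + 1 : ℕ) : A) = β := by rw [hβ]; push_cast; rfl
    rw [e3, e4, show γ + 2 - 1 = γ + 1 by omega, show γ + 1 - 1 = γ by omega]
    have : n * (-(n * w)) ^ (γ + 1) * X + n ^ (γ + 2) * z * (β * (-(β * w)) ^ γ * X) =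
        n ^ (γ + 2) * (-1) ^ γ * w ^ γ * X * (β ^ (γ + 1) * z - w) := by
      rw [neg_pow (n * w), neg_pow (β * w), mul_pow, mul_pow]
      ring
    rw [this, hw', mul_zero]
  linear_combination s1 + n ^ (γ + 2) * z * s2 + h1 + h2

end ring

theorem TT_cont {w c : ℂ × ℂ → ℂ} (hw : Continuous w) (hc : Continuous c) (n : ℕ) :
    Continuous fun p => TT (w p) (c p) n := by
  induction n with
  | zero => exact continuous_const
  | succ n ih =>
    simp only [TT]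
    exact ((hw.add hc).mul ih).add (continuous_const.mul (hw.pow _))

theorem GG_cont (γ : ℕ) : Continuous fun p : ℂ × ℂ => GG γ p.1 p.2 := by
  unfold GG
  refine (TT_cont ?_ ?_ _).add (Continuous.mul ?_ (TT_cont ?_ ?_ _)) <;> fun_prop

/-- **Belyi's polynomial.** -/
theorem t : LeafTwo := by
  intro R _ D n N hn hN h
  obtain ⟨γ, rfl⟩ : ∃ γ, n = γ + 2 := ⟨n - 2, by omega⟩
  haveI := isDomain D
  haveI := charZero D
  have hν : ((γ : ℂ) + 2) ≠ 0 := by exact_mod_cast (by omega : γ + 2 ≠ 0)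
  obtain ⟨C₁, hC₁, hlow⟩ := hom_lower (fun p => ((γ : ℂ) + 2) ^ (γ + 2) * p.1 * p.2 ^ (γ + 1))
    (fun p => (p.2 - ((γ : ℂ) + 1) ^ (γ + 1) * p.1) ^ (γ + 2)) (by fun_prop) (by fun_prop) (γ + 2)
    (by omega)
    (fun t p => by simp only [Prod.smul_fst, Prod.smul_snd, smul_eq_mul]; ring)
    (fun t p => by
      simp only [Prod.smul_fst, Prod.smul_snd, smul_eq_mul]
      rw [← mul_pow]
      congr 1
      ring)
    (by
      rintro ⟨x, y⟩ h1 h2
      simp only at h1 h2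
      have h4 : y - ((γ : ℂ) + 1) ^ (γ + 1) * x = 0 := (pow_eq_zero_iff (by omega)).1 h2
      have hβ : ((γ : ℂ) + 1) ≠ 0 := by exact_mod_cast (by omega : γ + 1 ≠ 0)
      rcases mul_eq_zero.1 h1 with h6 | h6
      · have h7 : x = 0 := (mul_eq_zero.1 h6).resolve_left (pow_ne_zero _ hν)
        rw [h7, mul_zero, sub_zero] at h4
        rw [h7, h4]
        rfl
      · have h7 : y = 0 := (pow_eq_zero_iff (by omega)).1 h6
        rw [h7, zero_sub, neg_eq_zero] at h4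
        have h8 : x = 0 := (mul_eq_zero.1 h4).resolve_left (pow_ne_zero _ hβ)
        rw [h7, h8]
        rfl)
  obtain ⟨C₂, hC₂, hup⟩ := hom_upper (fun p : ℂ × ℂ => GG γ p.1 p.2) (GG_cont γ) γ
    (fun t p => by simp only [Prod.smul_fst, Prod.smul_snd, smul_eq_mul]; exact GG_hom γ t p.1 p.2)
  obtain ⟨K₁, hK₁⟩ : ∃ K₁ : ℝ, K₁ = ((γ : ℝ) + 1) ^ (γ + 2) + 1 := ⟨_, rfl⟩
  have hβ1 : (1 : ℝ) ≤ ((γ : ℝ) + 1) ^ (γ + 2) :=
    one_le_pow₀ (by have : (0 : ℝ) ≤ γ := Nat.cast_nonneg γ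
                    linarith)
  have hK₁0 : 0 < K₁ := by rw [hK₁]; linarith
  obtain ⟨K, hK⟩ : ∃ K : ℝ, K = 1 + 2 * (K₁ ^ (γ + 2) * C₁) + C₂ := ⟨_, rfl⟩
  have hKa : 0 < K₁ ^ (γ + 2) * C₁ := mul_pos (pow_pos hK₁0 _) hC₁
  refine near D (2 * N * (γ + 2) * (γ + 1) ^ (γ + 2)) ?_ ?_
  · have h1 : 1 ≤ 2 * N * (γ + 2) := Nat.mul_pos (Nat.mul_pos two_pos hN) (by omega)
    exact Nat.mul_pos h1 (by positivity)
  refine transferTri D (γ + 2) γ K (by rw [hK]; linarith) (θ' := 1 - 1 / ((γ + 2 : ℕ) : ℝ)) ?_ ?_ ?_ h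
  · have h1 : (1 : ℝ) < ((γ + 2 : ℕ) : ℝ) := by exact_mod_cast (by omega : 1 < γ + 2)
    have h2 : 1 / ((γ + 2 : ℕ) : ℝ) < 1 := by
      rw [div_lt_one (by linarith)]
      exact h1
    linarith
  · have h1 : ((γ + 2 : ℕ) : ℝ) ≠ 0 := by exact_mod_cast (by omega : γ + 2 ≠ 0)
    have h2 : (1 - 1 / ((γ + 2 : ℕ) : ℝ)) * ((γ + 2 : ℕ) : ℝ) = ((γ + 2 : ℕ) : ℝ) - 1 := by
      field_simp
    rw [h2]
    push_cast
    linarith
  rintro ⟨a, b, c⟩ ht hdvd
  obtain ⟨hab, hsum, ha, hb, hc⟩ := ht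
  simp only at hab hsum ha hb hc hdvd
  right
  obtain ⟨a₁, ha₁⟩ := hdvd
  push_cast at ha₁
  obtain ⟨z, hz⟩ : ∃ z : R, z = 2 * N * ((γ : R) + 2) * a₁ := ⟨_, rfl⟩
  have haz : a = ((γ : R) + 1) ^ (γ + 2) * z := by rw [ha₁, hz]; ring
  have hz0 : z ≠ 0 := by
    rintro rfl
    rw [mul_zero] at haz
    exact ha haz
  obtain ⟨w, hw⟩ : ∃ w : R, w = ((γ : R) + 1) ^ (γ + 1) * z := ⟨_, rfl⟩
  have haw : a = ((γ : R) + 1) * w := by rw [haz, hw]; ring
  obtain ⟨x, hx⟩ : ∃ x : R, x = b - w := ⟨_, rfl⟩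
  obtain ⟨T, hT⟩ : ∃ T : R, T = ((γ : R) + 2) ^ (γ + 2) * z * b ^ (γ + 1) := ⟨_, rfl⟩
  obtain ⟨X, hX⟩ : ∃ X : R, X = ((γ : R) + 1) ^ (γ + 2) * z + b := ⟨_, rfl⟩
  have hcX : c = -X := by rw [hX, ← haz]; linear_combination hsum
  have hv : x ^ (γ + 2) + T = X ^ 2 * GG γ z b := by
    rw [hx, hw, hT, hX]
    exact belyi γ z b
  have hνR : ((γ : R) + 2) ≠ 0 := by exact_mod_cast (by omega : γ + 2 ≠ 0)
  have hT0 : T ≠ 0 := by
    rw [hT]
    exact mul_ne_zero (mul_ne_zero (pow_ne_zero _ hνR) hz0) (pow_ne_zero _ hb)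
  -- coprimality
  have hwb : IsCoprime w b := hab.of_isCoprime_of_dvd_left ⟨(γ : R) + 1, by rw [haw]; ring⟩
  have hwx : IsCoprime w x := by
    have := hwb.add_mul_left_right (-1)
    rwa [show b + w * -1 = x by rw [hx]; ring] at this
  have hzw : z ∣ w := ⟨((γ : R) + 1) ^ (γ + 1), by rw [hw]; ring⟩
  have hnz : ((γ : R) + 2) ∣ z := ⟨2 * N * a₁, by rw [hz]; ring⟩
  have hzx : IsCoprime z x := hwx.of_isCoprime_of_dvd_left hzw
  have hnx : IsCoprime ((γ : R) + 2) x := hzx.of_isCoprime_of_dvd_left hnz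
  have hbx : IsCoprime b x := by
    have h1 : IsCoprime b (-w) := hwb.symm.neg_right
    have := h1.add_mul_left_right 1
    rwa [show -w + b * 1 = x by rw [hx]; ring] at this
  have hTx : IsCoprime T x := by
    rw [hT]
    exact (hnx.pow_left.mul_left hzx).mul_left hbx.pow_left
  have hcop : IsCoprime (-T) (x ^ (γ + 2) + T) := by
    have h1 : IsCoprime T (x ^ (γ + 2)) := hTx.pow_right
    have h2 := h1.add_mul_left_right 1
    rw [mul_one] at h2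
    exact h2.neg_left
  have h2T : ((2 : ℕ) : R) ∣ -T := by
    refine ⟨-(((γ : R) + 2) ^ (γ + 2) * (N * ((γ : R) + 2) * a₁) * b ^ (γ + 1)), ?_⟩
    rw [hT, hz]
    push_cast
    ring
  have hv0 : x ^ (γ + 2) + T ≠ 0 := by
    intro h0
    rw [h0] at hcop
    exact not_unit_of_dvd D le_rfl h2T (isCoprime_zero_right.1 hcop)
  have hG0 : GG γ z b ≠ 0 := by
    intro h0
    rw [hv, h0, mul_zero] at hv0
    exact hv0 rfl
  refine ⟨(-T, x ^ (γ + 2) + T, x), ⟨hcop, neg_ne_zero.2 hT0, hv0, by simp, ?_⟩, ?_, GG γ z b, hG0,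
    ?_, γ + 3, ?_⟩
  · refine ⟨-(((γ : R) + 2) ^ (γ + 2) * (2 * ((γ : R) + 2) * a₁) * b ^ (γ + 1)), ?_⟩
    simp only
    rw [hT, hz]
    ring
  · intro i
    simp only
    have h1 := hlow (D.σ i z, D.σ i b)
    simp only at h1
    have e1 : ((γ : ℂ) + 2) ^ (γ + 2) * D.σ i z * D.σ i b ^ (γ + 1) = D.σ i T := by
      rw [hT]
      simp only [map_mul, map_add, map_pow, map_natCast, map_ofNat]
    have e2 : (D.σ i b - ((γ : ℂ) + 1) ^ (γ + 1) * D.σ i z) ^ (γ + 2) = D.σ i (x ^ (γ + 2)) := by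
      rw [hx, hw]
      simp only [map_mul, map_add, map_sub, map_pow, map_natCast, map_one]
    rw [e1, e2] at h1
    obtain ⟨m, hm⟩ : ∃ m, m = max ‖D.σ i (-T)‖ ‖D.σ i (x ^ (γ + 2) + T)‖ := ⟨_, rfl⟩
    have m1 : ‖D.σ i T‖ ≤ m := by
      rw [hm, map_neg, norm_neg]
      exact le_max_left _ _
    have m2 : ‖D.σ i (x ^ (γ + 2) + T)‖ ≤ m := by
      rw [hm]
      exact le_max_right _ _
    have m0 : 0 ≤ m := (norm_nonneg _).trans m1
    have h3 : max ‖D.σ i T‖ ‖D.σ i (x ^ (γ + 2))‖ ≤ 2 * m := by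
      refine max_le (by linarith) ?_
      have e3 : x ^ (γ + 2) = (x ^ (γ + 2) + T) - T := by ring
      rw [e3, map_sub]
      refine (norm_sub_le _ _).trans ?_
      linarith
    have hloc : ht D (a, b, c) i ≤ K₁ * ‖(D.σ i z, D.σ i b)‖ := by
      have n1 : ‖D.σ i z‖ ≤ ‖(D.σ i z, D.σ i b)‖ := by
        rw [Prod.norm_def]
        exact le_max_left _ _
      have n2 : ‖D.σ i b‖ ≤ ‖(D.σ i z, D.σ i b)‖ := by
        rw [Prod.norm_def]
        exact le_max_right _ _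
      have n0 : 0 ≤ ‖(D.σ i z, D.σ i b)‖ := norm_nonneg _
      have n3 : ‖D.σ i a‖ ≤ ((γ : ℝ) + 1) ^ (γ + 2) * ‖(D.σ i z, D.σ i b)‖ := by
        rw [haz, map_mul, map_pow, map_add, map_natCast, map_one, norm_mul, norm_pow]
        have e4 : ‖(γ : ℂ) + 1‖ = (γ : ℝ) + 1 := by
          have : ((γ : ℂ) + 1) = (((γ + 1 : ℕ)) : ℂ) := by push_cast; rfl
          rw [this, Complex.norm_natCast]
          push_cast
          rfl
        rw [e4]
        exact mul_le_mul_of_nonneg_left n1 (by positivity)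
      have n4 : ‖D.σ i c‖ ≤ K₁ * ‖(D.σ i z, D.σ i b)‖ := by
        have e5 : c = -(a + b) := by linear_combination hsum
        rw [e5, map_neg, norm_neg, map_add]
        refine (norm_add_le _ _).trans ?_
        rw [hK₁]
        linarith
      simp only [ht]
      refine max_le (max_le ?_ ?_) n4
      · rw [hK₁]
        linarith
      · rw [hK₁]
        nlinarith [mul_nonneg (sub_nonneg.2 hβ1) n0]
    calc ht D (a, b, c) i ^ (γ + 2) ≤ (K₁ * ‖(D.σ i z, D.σ i b)‖) ^ (γ + 2) :=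
          pow_le_pow_left₀ (ht_nonneg D _ i) hloc _
      _ = K₁ ^ (γ + 2) * ‖(D.σ i z, D.σ i b)‖ ^ (γ + 2) := mul_pow _ _ _
      _ ≤ K₁ ^ (γ + 2) * (C₁ * (2 * m)) := by
          apply mul_le_mul_of_nonneg_left _ (pow_pos hK₁0 _).le
          exact h1.trans (mul_le_mul_of_nonneg_left h3 hC₁.le)
      _ = 2 * (K₁ ^ (γ + 2) * C₁) * m := by ring
      _ ≤ K * m := mul_le_mul_of_nonneg_right (by rw [hK]; linarith) m0
      _ = K * max ‖D.σ i (-T)‖ ‖D.σ i (x ^ (γ + 2) + T)‖ := by rw [hm]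
  · intro i
    have h1 := hup (D.σ i z, D.σ i b)
    simp only at h1
    rw [← GG_map] at h1
    have hnp : ‖(D.σ i z, D.σ i b)‖ ≤ ht D (a, b, c) i := by
      rw [Prod.norm_def]
      refine max_le ?_ (ht_ge2 D (a, b, c) i)
      refine le_trans ?_ (ht_ge1 D (a, b, c) i)
      simp only
      rw [haz, map_mul, map_pow, map_add, map_natCast, map_one, norm_mul, norm_pow]
      have e4 : ‖(γ : ℂ) + 1‖ = (γ : ℝ) + 1 := by
        have : ((γ : ℂ) + 1) = (((γ + 1 : ℕ)) : ℂ) := by push_cast; rfl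
        rw [this, Complex.norm_natCast]
        push_cast
        rfl
      rw [e4]
      exact le_mul_of_one_le_left (norm_nonneg _) hβ1
    calc ‖D.σ i (GG γ z b)‖ ≤ C₂ * ‖(D.σ i z, D.σ i b)‖ ^ γ := h1
      _ ≤ C₂ * ht D (a, b, c) i ^ γ := by
          apply mul_le_mul_of_nonneg_left _ hC₂.le
          exact pow_le_pow_left₀ (norm_nonneg _) hnp γ
      _ ≤ K * ht D (a, b, c) i ^ γ :=
          mul_le_mul_of_nonneg_right (by rw [hK]; linarith) (pow_nonneg (ht_nonneg D _ i) _)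
  · simp only
    rw [hv, hcX]
    obtain ⟨r, hr⟩ := hnz
    -- `T` divides `(z b) ^ (γ + 3)`
    have hTd : T ∣ (z * b) ^ (γ + 3) := by
      refine ⟨r ^ (γ + 2) * b ^ 2, ?_⟩
      rw [hT, mul_pow]
      have : z ^ (γ + 3) = ((γ : R) + 2) ^ (γ + 2) * r ^ (γ + 2) * z := by
        rw [pow_succ, ← mul_pow, ← hr]
      rw [this]
      ring
    have h1 : T * (X ^ 2 * GG γ z b) ∣ (z * b * X * GG γ z b) ^ (γ + 3) := by
      have e : (z * b * X * GG γ z b) ^ (γ + 3) =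
          (z * b) ^ (γ + 3) * (X ^ (γ + 3) * GG γ z b ^ (γ + 3)) := by
        rw [← mul_pow, ← mul_pow]
        congr 1
        ring
      rw [e]
      exact mul_dvd_mul hTd (mul_dvd_mul (pow_dvd_pow X (by omega)) (dvd_pow_self _ (by omega)))
    have h2 : (z * b * X * GG γ z b) ^ (γ + 3) ∣ (a * b * -X * GG γ z b) ^ (γ + 3) := by
      apply pow_dvd_pow_of_dvd
      refine ⟨-((γ : R) + 1) ^ (γ + 2), ?_⟩
      rw [haz]
      ring
    rw [neg_mul]
    exact (neg_dvd.2 h1).trans h2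

end Pool.Agent.N711.GA
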